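import Pool.Agent.W92.ET.Base

set_option autoImplicit false

open MeasureTheory

namespace Pool.Agent.W557.ET

open Pool.Agent.W92.ET

lemma mono_int (m : ℕ) (S : ℝ) (hS : 0 < S) :
    IntegrableOn (fun u : ℝ => u ^ m * Real.exp (-(u * S))) (Set.Ioi 0) := by
  have h := integrableOn_rpow_mul_exp_neg_mul_rpow (p := 1) (s := (m : ℝ)) (b := S)
    (by have : (0 : ℝ) ≤ m := Nat.cast_nonneg m
        linarith) one_pos hS
  refine h.congr_fun ?_ measurableSet_Ioi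
  intro u hu
  simp only [Real.rpow_one, Real.rpow_natCast]
  congr 2
  ring

lemma mono_val (m : ℕ) (S : ℝ) (hS : 0 < S) :
    ∫ u in Set.Ioi (0 : ℝ), u ^ m * Real.exp (-(u * S)) = (m.factorial : ℝ) / S ^ (m + 1) := by
  have h := Real.integral_rpow_mul_exp_neg_mul_Ioi (a := (m : ℝ) + 1) (r := S)
    (by positivity) hS
  rw [Real.Gamma_nat_eq_factorial] at h
  have h2 : ∫ u in Set.Ioi (0 : ℝ), u ^ m * Real.exp (-(u * S))
      = ∫ t in Set.Ioi (0 : ℝ), t ^ ((m : ℝ) + 1 - 1) * Real.exp (-(S * t)) := by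
    refine setIntegral_congr_fun measurableSet_Ioi ?_
    intro u hu
    simp only [add_sub_cancel_right, Real.rpow_natCast]
    congr 2
    ring
  rw [h2, h]
  have h3 : ((1 : ℝ) / S) ^ ((m : ℝ) + 1) = 1 / S ^ (m + 1) := by
    have : ((m : ℝ) + 1) = ((m + 1 : ℕ) : ℝ) := by push_cast; ring
    rw [this, Real.rpow_natCast, one_div_pow]
  rw [h3]
  ring

lemma base (c : ℝ) (m : ℕ) (S : ℝ) (hS : 0 < S) :
    IntegrableOn (fun u : ℝ => c * (u ^ m * Real.exp (-(u * S)))) (Set.Ioi 0) ∧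
    ∫ u in Set.Ioi (0 : ℝ), c * (u ^ m * Real.exp (-(u * S)))
        = c * ((m.factorial : ℝ) / S ^ (m + 1)) := by
  refine ⟨(mono_int m S hS).const_mul c, ?_⟩
  rw [integral_const_mul, mono_val m S hS]

lemma step (f : ℝ → ℝ) (v c : ℝ) (m : ℕ) (S : ℝ) (hS : 0 < S)
    (hf : IntegrableOn f (Set.Ioi 0) ∧ ∫ u in Set.Ioi (0 : ℝ), f u = v) :
    IntegrableOn (fun u : ℝ => f u + c * (u ^ m * Real.exp (-(u * S)))) (Set.Ioi 0) ∧
    ∫ u in Set.Ioi (0 : ℝ), (f u + c * (u ^ m * Real.exp (-(u * S))))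
        = v + c * ((m.factorial : ℝ) / S ^ (m + 1)) := by
  have hb := base c m S hS
  refine ⟨hf.1.add hb.1, ?_⟩
  rw [integral_add hf.1 hb.1, hf.2, hb.2]

theorem lap : S_lap := by
  intro y y' hy hy'
  have hS : 0 < y + y' := by linarith
  set S : ℝ := y + y' with hSdef
  have key : ∀ u : ℝ, (pp u (u * y) * pp u (u * y') + qq u (u * y) * qq u (u * y'))
      * Real.exp (-(u * S)) =
      (45 * 45 / 3600) * (u ^ 0 * Real.exp (-(u * S)))
      + ((45 * (23 * y') + (23 * y) * 45) / 3600) * (u ^ 1 * Real.exp (-(u * S)))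
      + ((45 * (11 - 22 * y' ^ 2) + (23 * y) * (23 * y') + (11 - 22 * y ^ 2) * 45 + 36 * 36) / 3600)
          * (u ^ 2 * Real.exp (-(u * S)))
      + ((45 * (12 * y' ^ 3 - 11 * y') + (23 * y) * (11 - 22 * y' ^ 2)
          + (11 - 22 * y ^ 2) * (23 * y') + (12 * y ^ 3 - 11 * y) * 45
          + 36 * (-15 * y') + (-15 * y) * 36) / 3600) * (u ^ 3 * Real.exp (-(u * S)))
      + (((23 * y) * (12 * y' ^ 3 - 11 * y') + (11 - 22 * y ^ 2) * (11 - 22 * y' ^ 2)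
          + (12 * y ^ 3 - 11 * y) * (23 * y') + 36 * (13 * y' ^ 2 - 12) + (-15 * y) * (-15 * y')
          + (13 * y ^ 2 - 12) * 36) / 3600) * (u ^ 4 * Real.exp (-(u * S)))
      + (((11 - 22 * y ^ 2) * (12 * y' ^ 3 - 11 * y') + (12 * y ^ 3 - 11 * y) * (11 - 22 * y' ^ 2)
          + (-15 * y) * (13 * y' ^ 2 - 12) + (13 * y ^ 2 - 12) * (-15 * y')) / 3600)
          * (u ^ 5 * Real.exp (-(u * S)))
      + (((12 * y ^ 3 - 11 * y) * (12 * y' ^ 3 - 11 * y') + (13 * y ^ 2 - 12) * (13 * y' ^ 2 - 12))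
          / 3600) * (u ^ 6 * Real.exp (-(u * S))) := by
    intro u
    unfold pp qq
    ring
  simp only [key]
  have h0 := base (45 * 45 / 3600) 0 S hS
  have h1 := step _ _ ((45 * (23 * y') + (23 * y) * 45) / 3600) 1 S hS h0
  have h2 := step _ _ ((45 * (11 - 22 * y' ^ 2) + (23 * y) * (23 * y') + (11 - 22 * y ^ 2) * 45
    + 36 * 36) / 3600) 2 S hS h1
  have h3 := step _ _ ((45 * (12 * y' ^ 3 - 11 * y') + (23 * y) * (11 - 22 * y' ^ 2)
          + (11 - 22 * y ^ 2) * (23 * y') + (12 * y ^ 3 - 11 * y) * 45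
          + 36 * (-15 * y') + (-15 * y) * 36) / 3600) 3 S hS h2
  have h4 := step _ _ (((23 * y) * (12 * y' ^ 3 - 11 * y') + (11 - 22 * y ^ 2) * (11 - 22 * y' ^ 2)
          + (12 * y ^ 3 - 11 * y) * (23 * y') + 36 * (13 * y' ^ 2 - 12) + (-15 * y) * (-15 * y')
          + (13 * y ^ 2 - 12) * 36) / 3600) 4 S hS h3
  have h5 := step _ _ (((11 - 22 * y ^ 2) * (12 * y' ^ 3 - 11 * y')
          + (12 * y ^ 3 - 11 * y) * (11 - 22 * y' ^ 2)
          + (-15 * y) * (13 * y' ^ 2 - 12) + (13 * y ^ 2 - 12) * (-15 * y')) / 3600) 5 S hS h4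
  have h6 := step _ _ (((12 * y ^ 3 - 11 * y) * (12 * y' ^ 3 - 11 * y')
          + (13 * y ^ 2 - 12) * (13 * y' ^ 2 - 12)) / 3600) 6 S hS h5
  refine ⟨h6.1, h6.2.trans ?_⟩
  simp only [Nat.factorial]
  unfold kk GG
  have hS0 : y + y' ≠ 0 := ne_of_gt hS
  rw [hSdef]
  push_cast
  field_simp
  ring

end Pool.Agent.W557.ET
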